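import Pool.Agent.H9.Morse.D1

/-! Module D of MP_b587bd_al: `H` is wide for every finite generating set (helper9). -/

set_option autoImplicit false

namespace Pool.Agent.H9.Morse

open Pool.Agent.H20.Morse

/-! ### Paths outside a ball -/

section con
variable {S : Finset H}

/-- `x` and `y` are joined by a path of length at most `T` outside the ball of radius `r`. -/
def Con (S : Finset H) (r T : ℕ) (x y : H) : Prop :=
  ∃ (T' : ℕ) (p : ℕ → H), T' ≤ T ∧ p 0 = x ∧ p T' = y ∧ IsPath (cay S) T' p ∧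
    ∀ t ≤ T', r ≤ (cay S).dist 1 (p t)

theorem Con.mono {r T T' : ℕ} {x y : H} (h : Con S r T x y) (hT : T ≤ T') : Con S r T' x y := by
  obtain ⟨s, p, h1, h2⟩ := h
  exact ⟨s, p, h1.trans hT, h2⟩

theorem Con.refl {r T : ℕ} {x : H} (h : r ≤ (cay S).dist 1 x) : Con S r T x x :=
  ⟨0, fun _ => x, Nat.zero_le _, rfl, rfl, fun t ht => absurd ht (Nat.not_lt_zero t), fun _ _ => h⟩

theorem Con.symm {r T : ℕ} {x y : H} (h : Con S r T x y) : Con S r T y x := by
  obtain ⟨s, p, h1, h2, h3, h4, h5⟩ := h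
  refine ⟨s, fun t => p (s - t), h1, by simpa using h3, by simpa using h2, h4.reverse, ?_⟩
  intro t ht
  exact h5 _ (Nat.sub_le _ _)

theorem Con.trans {r T T' : ℕ} {x y z : H} (h : Con S r T x y) (h' : Con S r T' y z) :
    Con S r (T + T') x z := by
  obtain ⟨s, p, h1, h2, h3, h4, h5⟩ := h
  obtain ⟨s', p', h1', h2', h3', h4', h5'⟩ := h'
  obtain ⟨q, q0, q1, q2, q3, q4⟩ := h4.append h4' (h3.trans h2'.symm)
  refine ⟨s + s', q, add_le_add h1 h1', q0.trans h2, q1.trans h3', q2, ?_⟩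
  intro t ht
  by_cases ht' : t ≤ s
  · rw [q3 t ht']
    exact h5 t ht'
  · have := q4 (t - s) (by omega)
    rw [Nat.add_sub_cancel' (by omega)] at this
    rw [this]
    exact h5' _ (by omega)

theorem con_step (hS : Subgroup.closure (S : Set H) = ⊤) {r A : ℕ} {x y : H}
    (hx : r + A ≤ (cay S).dist 1 x) (hxy : (cay S).dist x y ≤ A) : Con S r A x y := by
  obtain ⟨p, p0, p1, p2, p3⟩ := exists_geodesic (cay_connected hS) x y
  refine ⟨(cay S).dist x y, p, hxy, p0, p1, p2, ?_⟩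
  intro t ht
  have h1 := (p3 t ht).1
  have h2 : (cay S).dist 1 x ≤ (cay S).dist 1 (p t) + (cay S).dist (p t) x :=
    (cay_connected hS).dist_triangle
  rw [SimpleGraph.dist_comm (u := p t)] at h2
  omega

theorem con_line (hS : Subgroup.closure (S : Set H) = ⊤) {r A : ℕ} (f : ℕ → H) (m : ℕ)
    (h1 : ∀ i ≤ m, r + A ≤ (cay S).dist 1 (f i))
    (h2 : ∀ i < m, (cay S).dist (f i) (f (i + 1)) ≤ A) : Con S r (A * m) (f 0) (f m) := by
  induction m with
  | zero => exact Con.refl (le_trans (Nat.le_add_right _ _) (h1 0 le_rfl))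
  | succ m ih =>
    rw [Nat.mul_succ]
    exact (ih (fun i hi => h1 i (by omega)) (fun i hi => h2 i (by omega))).trans
      (con_step hS (h1 m (by omega)) (h2 m (by omega)))

theorem con_geo (hS : Subgroup.closure (S : Set H) = ⊤) {r k : ℕ} (z x : H)
    (hx : (cay S).dist 1 x = k)
    (hz : ∀ g : H, (cay S).dist 1 g ≤ k → r ≤ (cay S).dist 1 (z * g)) :
    Con S r k z (z * x) := by
  obtain ⟨p, p0, p1, p2, p3⟩ := exists_geodesic (cay_connected hS) 1 x
  rw [hx] at p1 p2 p3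
  refine ⟨k, fun t => z * p t, le_rfl, by simp [p0], by simp [p1], isPath_mul p2 z, ?_⟩
  intro t ht
  exact hz _ (by rw [(p3 t ht).1]; exact ht)

end con

/-! ### Standard generators -/

/-- Bound for the length of the standard generators. -/
theorem exists_A (S : Finset H) :
    ∃ A : ℕ, 1 ≤ A ∧ (cay S).dist 1 (pt 1 1 0 0) ≤ A ∧ (cay S).dist 1 (pt 1 0 1 0) ≤ A ∧
      (cay S).dist 1 (pt 1 0 0 1) ≤ A ∧ (cay S).dist 1 (pt (lmp x0) 0 0 0) ≤ A :=
  ⟨1 + (cay S).dist 1 (pt 1 1 0 0) + (cay S).dist 1 (pt 1 0 1 0) + (cay S).dist 1 (pt 1 0 0 1) +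
    (cay S).dist 1 (pt (lmp x0) 0 0 0), by omega, by omega, by omega, by omega, by omega⟩

section moves
variable {S : Finset H} (hS : Subgroup.closure (S : Set H) = ⊤) {A : ℕ}
include hS

theorem dist_mul_right (x s : H) : (cay S).dist x (x * s) = (cay S).dist 1 s := by
  rw [cay_dist_one hS x (x * s)]
  simp

theorem dist_lamp (h : (cay S).dist 1 (pt (lmp x0) 0 0 0) ≤ A) (n : N) (c b a : ℤ) :
    (cay S).dist (pt n c b a) (pt (n * lmp ⟨c, b, a + 1⟩) c b a) ≤ A := by
  rw [← pt_mul_lamp, dist_mul_right hS]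
  exact h

theorem dist_c (h : (cay S).dist 1 (pt 1 1 0 0) ≤ A) (n : N) (c b a : ℤ) :
    (cay S).dist (pt n c b a) (pt n (c + 1) b a) ≤ A := by
  have h1 : pt n (c + 1) b a = pt n c b a * pt 1 1 0 0 := by
    rw [pt_mul_one, add_zero, add_zero]
  rw [h1, dist_mul_right hS]
  exact h

theorem dist_b (h : (cay S).dist 1 (pt 1 0 1 0) ≤ A) (n : N) (c b a : ℤ) :
    (cay S).dist (pt n c b a) (pt n c (b + 1) a) ≤ A := by
  have h1 : pt n c (b + 1) a = pt n c b a * pt 1 0 1 0 := by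
    rw [pt_mul_one, add_zero, add_zero]
  rw [h1, dist_mul_right hS]
  exact h

theorem dist_a (h : (cay S).dist 1 (pt 1 0 0 1) ≤ A) (n : N) (c b a : ℤ) :
    (cay S).dist (pt n c b a) (pt n c b (a + 1)) ≤ A := by
  have h1 : pt n c b (a + 1) = pt n c b a * pt 1 0 0 1 := by
    rw [pt_mul_one, add_zero, add_zero]
  rw [h1, dist_mul_right hS]
  exact h

/-- A function on the integers with small steps. -/
theorem con_int {r : ℕ} (f : ℤ → H) (hA : ∀ i, (cay S).dist (f i) (f (i + 1)) ≤ A)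
    (u v : ℤ) (hf : ∀ i, u ≤ i → i ≤ v → r + A ≤ (cay S).dist 1 (f i)) (huv : u ≤ v) (m : ℕ)
    (hm : v - u ≤ m) : Con S r (A * m) (f u) (f v) := by
  obtain ⟨l, hl⟩ := Int.le.dest huv
  have h1 := con_line hS (r := r) (A := A) (fun i : ℕ => f (u + i)) l
    (fun i hi => hf _ (by linarith [Int.natCast_nonneg i])
      (by have : (i : ℤ) ≤ l := by exact_mod_cast hi
          linarith))
    (fun i _ => by
      have := hA (u + i)
      rw [add_assoc] at this
      exact_mod_cast this)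
  simp only [Nat.cast_zero, add_zero, hl] at h1
  refine h1.mono (Nat.mul_le_mul_left A ?_)
  have : (l : ℤ) ≤ m := by linarith
  exact_mod_cast this

theorem con_int' {r : ℕ} (f : ℤ → H) (hA : ∀ i, (cay S).dist (f i) (f (i + 1)) ≤ A)
    (hf : ∀ i, r + A ≤ (cay S).dist 1 (f i)) (u v : ℤ) (m : ℕ)
    (hm : |v - u| ≤ m) : Con S r (A * m) (f u) (f v) := by
  rcases le_total u v with h | h
  · exact con_int hS f hA u v (fun i _ _ => hf i) h m (by linarith [le_abs_self (v - u)])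
  · exact (con_int hS f hA v u (fun i _ _ => hf i) h m (by linarith [neg_abs_le (v - u)])).symm

end moves

/-! ### The far points -/

/-- Lamps in the box commute with the lamp at a far point. -/
theorem adj_far {L c b a' : ℤ} {v : Pol} (hL : 1 ≤ L) (hc : |c| ≤ L) (hb : |b| ≤ L)
    (ha : 10 * L ≤ |a'|) (hv : |v.c| ≤ L ∧ |v.b| ≤ L ∧ |v.a - 1| ≤ L) :
    Adj ⟨c, b, a' + 1⟩ v := by
  obtain ⟨h1, h2, h3⟩ := hv
  have eX : a' + 1 - v.a = a' - (v.a - 1) := by ring
  have hX : 9 * L ≤ |a' - (v.a - 1)| := by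
    have := abs_sub_abs_le_abs_sub a' (v.a - 1)
    linarith
  have hY : |b - v.b| ≤ 2 * L := by
    have := abs_sub b v.b
    linarith
  have hZ : |c - v.c| ≤ 2 * L := by
    have := abs_sub c v.c
    linarith
  unfold Adj
  simp only
  rw [eX]
  refine ⟨by linarith, ?_⟩
  have h4 : |(b - v.b) ^ 2 - 4 * (a' - (v.a - 1)) * (c - v.c)|
      ≤ |b - v.b| ^ 2 + 4 * (|a' - (v.a - 1)| * |c - v.c|) := by
    have := abs_sub ((b - v.b) ^ 2) (4 * (a' - (v.a - 1)) * (c - v.c))
    rw [abs_pow, abs_mul, abs_mul] at this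
    have h5 : |(4 : ℤ)| = 4 := rfl
    rw [h5] at this
    linarith
  have h6 : |b - v.b| ^ 2 ≤ (2 * L) ^ 2 := pow_le_pow_left₀ (abs_nonneg _) hY 2
  have h7 : |a' - (v.a - 1)| * |c - v.c| ≤ |a' - (v.a - 1)| * (2 * L) :=
    mul_le_mul_of_nonneg_left hZ (abs_nonneg _)
  have h8 : (a' - (v.a - 1)) ^ 2 = |a' - (v.a - 1)| ^ 2 := (sq_abs _).symm
  rw [h8]
  generalize |a' - (v.a - 1)| = X at *
  have h9 : 9 * L * X ≤ X * X := mul_le_mul_of_nonneg_right hX (by linarith)
  have h10 : 9 * L * (9 * L) ≤ X * X := mul_le_mul hX hX (by linarith) (by linarith)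
  nlinarith

theorem commute_far {L c b a' : ℤ} {n : N} (hL : 1 ≤ L) (hc : |c| ≤ L) (hb : |b| ≤ L)
    (ha : 10 * L ≤ |a'|) (hn : LB L n) :
    lmp ⟨c, b, a' + 1⟩ * n = n * lmp ⟨c, b, a' + 1⟩ := by
  obtain ⟨w, rfl, hw⟩ := hn
  have : Commute (lmp ⟨c, b, a' + 1⟩) (w.map lmp).prod := by
    apply Commute.list_prod_right
    intro z hz
    obtain ⟨v, hv, rfl⟩ := List.mem_map.mp hz
    exact Racg.lamp_comm (adj_far hL hc hb ha (hw v hv))
  exact this

section main
variable {S : Finset H} (hS : Subgroup.closure (S : Set H) = ⊤) {A M k r : ℕ}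
  (hA : 1 ≤ A) (hA1 : (cay S).dist 1 (pt 1 1 0 0) ≤ A) (hA2 : (cay S).dist 1 (pt 1 0 1 0) ≤ A)
  (hA3 : (cay S).dist 1 (pt 1 0 0 1) ≤ A) (hA4 : (cay S).dist 1 (pt (lmp x0) 0 0 0) ≤ A)
  (hM : 1 ≤ M) (hMB : ∀ g : H, Bd ((M * (cay S).dist 1 g : ℕ) : ℤ) g)
  (hr : (1 + A * M) * (r + A) ≤ k) (hk : 1 ≤ k)

include hM hr in
/-- A lower bound for the norm. -/
theorem far_of {d : ℕ} (h : 10 * ((M * k : ℕ) : ℤ) ≤ ((M * d : ℕ) : ℤ)) : r + A ≤ d := by
  have h1 : M * (10 * k) ≤ M * d := by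
    have : 10 * (M * k) ≤ M * d := by exact_mod_cast h
    calc M * (10 * k) = 10 * (M * k) := by ring
      _ ≤ _ := this
  have h2 : 10 * k ≤ d := Nat.le_of_mul_le_mul_left h1 (by omega)
  have h3 : r + A ≤ (1 + A * M) * (r + A) := Nat.le_mul_of_pos_left _ (by omega)
  omega

include hM hMB hr in
theorem far_a {n : N} {c b a : ℤ} (ha : 10 * ((M * k : ℕ) : ℤ) ≤ |a|) :
    r + A ≤ (cay S).dist 1 (pt n c b a) :=
  far_of hM hr (ha.trans (hMB (pt n c b a)).2.2.1)

include hM hMB hr in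
theorem far_c {n : N} {c b a : ℤ} (hc : 10 * ((M * k : ℕ) : ℤ) ≤ |c|) :
    r + A ≤ (cay S).dist 1 (pt n c b a) :=
  far_of hM hr (hc.trans (hMB (pt n c b a)).1)

include hM hMB hr hk in
theorem far_lamp {n : N} {U : Pol} {c b a : ℤ} (hU : 10 * ((M * k : ℕ) : ℤ) ≤ |U.a - 1|)
    (hn : LB ((M * k : ℕ) : ℤ) n) :
    r + A ≤ (cay S).dist 1 (pt (lmp U) 0 0 0 * pt n c b a) := by
  apply far_of hM hr
  by_contra hcon
  push Not at hcon
  have h1 := (hMB (pt (lmp U) 0 0 0 * pt n c b a)).2.2.2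
  have h2 := par_LB h1 (lt_of_lt_of_le hcon hU)
  rw [lamp_mul_pt] at h2
  have h3 : par U (lmp U * n) = 1 := h2
  rw [map_mul, par_lmp_self] at h3
  have hk' : (0 : ℤ) < ((M * k : ℕ) : ℤ) := by
    exact_mod_cast Nat.mul_pos (by omega) (by omega)
  rw [par_LB hn (by linarith), mul_one] at h3
  exact ofAdd_one_ne h3

include hS hA3 in
theorem lip_a (f : ℤ → H) (hf : ∀ i, (cay S).dist (f i) (f (i + 1)) ≤ A) (u : ℤ) (l : ℕ) :
    (cay S).dist (f u) (f (u + l)) ≤ A * l := by
  induction l with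
  | zero => simp
  | succ l ih =>
    have h1 : (cay S).dist (f u) (f (u + (l + 1 : ℕ))) ≤ (cay S).dist (f u) (f (u + l)) +
        (cay S).dist (f (u + l)) (f (u + (l + 1 : ℕ))) := (cay_connected hS).dist_triangle
    have h2 := hf (u + l)
    have h3 : u + ((l + 1 : ℕ) : ℤ) = u + l + 1 := by push_cast; ring
    rw [h3] at h1 ⊢
    rw [Nat.mul_succ]
    omega

include hS hA3 hM hMB hr in
/-- Leaving a point of the sphere in the direction of the third coordinate. -/
theorem exists_exit {n : N} {c b a : ℤ} (hx : (cay S).dist 1 (pt n c b a) = k) :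
    ∃ a' : ℤ, 10 * ((M * k : ℕ) : ℤ) ≤ |a'| ∧ |a' - a| ≤ ((10 * (M * k) : ℕ) : ℤ) ∧
      Con S r (A * (10 * (M * k))) (pt n c b a) (pt n c b a') := by
  have key : ∀ (i : ℤ) (l : ℕ), (l : ℤ) ≤ |i| →
      (cay S).dist (pt n c b a) (pt n c b i) ≤ A * l →
      r + A ≤ (cay S).dist 1 (pt n c b i) := by
    intro i l hl hd
    have h1 : (cay S).dist 1 (pt n c b a) ≤ (cay S).dist 1 (pt n c b i) +
        (cay S).dist (pt n c b i) (pt n c b a) := (cay_connected hS).dist_triangle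
    rw [SimpleGraph.dist_comm (u := pt n c b i), hx] at h1
    have h2 : |i| ≤ ((M * (cay S).dist 1 (pt n c b i) : ℕ) : ℤ) := (hMB (pt n c b i)).2.2.1
    have h3 : l ≤ M * (cay S).dist 1 (pt n c b i) := by exact_mod_cast hl.trans h2
    generalize (cay S).dist 1 (pt n c b i) = d at *
    have h4 : A * l ≤ A * (M * d) := Nat.mul_le_mul_left A h3
    have h5 : (1 + A * M) * (r + A) ≤ (1 + A * M) * d := by
      calc (1 + A * M) * (r + A) ≤ k := hr
        _ ≤ d + A * (M * d) := by omega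
        _ = (1 + A * M) * d := by ring
    exact Nat.le_of_mul_le_mul_left h5 (by omega)
  have hf : ∀ i, (cay S).dist (pt n c b i) (pt n c b (i + 1)) ≤ A := fun i => dist_a hS hA3 n c b i
  have e10 : ((10 * (M * k) : ℕ) : ℤ) = 10 * ((M * k : ℕ) : ℤ) := by push_cast; ring
  rcases le_total 0 a with ha | ha
  · refine ⟨a + ((10 * (M * k) : ℕ) : ℤ), ?_, ?_, ?_⟩
    · rw [abs_of_nonneg (by positivity), e10]
      linarith
    · rw [add_sub_cancel_left, abs_of_nonneg (by positivity)]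
    · refine con_int hS (fun i => pt n c b i) hf a _ ?_ (by linarith [Int.natCast_nonneg (10 * (M * k))])
        (10 * (M * k)) (by linarith)
      intro i hi _
      obtain ⟨l, rfl⟩ := Int.le.dest hi
      refine key _ l ?_ (lip_a hS hA3 (fun i => pt n c b i) hf a l)
      rw [abs_of_nonneg (by positivity)]
      linarith
  · refine ⟨a - ((10 * (M * k) : ℕ) : ℤ), ?_, ?_, ?_⟩
    · rw [abs_of_nonpos (by linarith [Int.natCast_nonneg (10 * (M * k))]), e10]
      linarith
    · rw [sub_sub_cancel_left, abs_neg, abs_of_nonneg (by positivity)]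
    · refine (con_int hS (fun i => pt n c b i) hf (a - ((10 * (M * k) : ℕ) : ℤ)) a ?_
        (by linarith [Int.natCast_nonneg (10 * (M * k))]) (10 * (M * k)) (by linarith)).symm
      intro i _ hi
      obtain ⟨l, hl⟩ := Int.le.dest hi
      refine key _ l ?_ ?_
      · rw [abs_of_nonpos (by linarith)]
        linarith [Int.natCast_nonneg l]
      · rw [SimpleGraph.dist_comm, ← hl]
        exact lip_a hS hA3 (fun i => pt n c b i) hf i l

include hS hA hA1 hA2 hA3 hA4 hM hMB hr hk in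
theorem wide_main {x y : H} (hx : (cay S).dist 1 x = k) (hy : (cay S).dist 1 y = k) :
    Con S r (116 * (A * (M * k))) x y := by
  have hMx := hMB x
  have hMy := hMB y
  rw [hx] at hMx
  rw [hy] at hMy
  rw [eq_pt x] at hx hMx ⊢
  rw [eq_pt y] at hy hMy ⊢
  generalize x.1.left = n at *
  generalize x.1.right.c = c at *
  generalize x.1.right.b = b at *
  generalize x.1.right.a = a at *
  generalize y.1.left = m at *
  generalize y.1.right.c = c' at *
  generalize y.1.right.b = b' at *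
  generalize y.1.right.a = a₁ at *
  rw [bd_pt] at hMx hMy
  obtain ⟨xc, xb, xa, xn⟩ := hMx
  obtain ⟨yc, yb, ya, yn⟩ := hMy
  obtain ⟨u, hu1, hu2, hu3⟩ := exists_exit hS hA3 hM hMB hr hx
  obtain ⟨v, hv1, hv2, hv3⟩ := exists_exit hS hA3 hM hMB hr hy
  have hL : (1 : ℤ) ≤ ((M * k : ℕ) : ℤ) := by
    exact_mod_cast Nat.mul_pos (by omega) (by omega)
  -- the lamp
  have comx := commute_far hL xc xb hu1 xn
  have comy := commute_far hL xc xb hu1 yn
  have hU : 10 * ((M * k : ℕ) : ℤ) ≤ |(⟨c, b, u + 1⟩ : Pol).a - 1| := by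
    simpa using hu1
  have far1 : ∀ {n : N} {c₀ b₀ a₀ : ℤ}, LB ((M * k : ℕ) : ℤ) n →
      r + A ≤ (cay S).dist 1 (pt (lmp ⟨c, b, u + 1⟩) 0 0 0 * pt n c₀ b₀ a₀) :=
    fun hn => far_lamp hM hMB hr hk hU hn
  have s2 : Con S r A (pt n c b u) (pt (lmp ⟨c, b, u + 1⟩) 0 0 0 * pt n c b u) := by
    rw [lamp_mul_pt, comx]
    exact con_step hS (far_a hM hMB hr hu1) (dist_lamp hS hA4 n c b u)
  have s5 : Con S r A (pt (lmp ⟨c, b, u + 1⟩) 0 0 0 * pt m c b u) (pt m c b u) := by
    rw [lamp_mul_pt, comy]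
    exact (con_step hS (far_a hM hMB hr hu1) (dist_lamp hS hA4 m c b u)).symm
  generalize pt (lmp ⟨c, b, u + 1⟩) 0 0 0 = z at *
  have mulz : ∀ {g h : H}, (cay S).dist g h ≤ A → (cay S).dist (z * g) (z * h) ≤ A := by
    intro g h hgh
    rw [cay_dist_mul hS]
    exact hgh
  have s3a : Con S r (A * (10 * (M * k))) (z * pt n c b u) (z * pt n c b a) :=
    con_int' hS (fun i => z * pt n c b i) (fun i => mulz (dist_a hS hA3 n c b i))
      (fun i => far1 xn) u a _ (by rw [abs_sub_comm]; exact hu2)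
  have hz : ∀ g : H, (cay S).dist 1 g ≤ k → r ≤ (cay S).dist 1 (z * g) := by
    intro g hg
    have h1 := (hMB g).2.2.2
    rw [eq_pt g]
    have h2 : LB ((M * k : ℕ) : ℤ) g.1.left := h1.mono (by
      exact_mod_cast Nat.mul_le_mul_left M hg)
    exact (Nat.le_add_right r A).trans (far1 h2)
  have s3b : Con S r k (z * pt n c b a) z := (con_geo hS z _ hx hz).symm
  have s3c : Con S r k z (z * pt m c' b' a₁) := con_geo hS z _ hy hz
  have s3d : Con S r (A * (10 * (M * k))) (z * pt m c' b' a₁) (z * pt m c' b' v) :=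
    con_int' hS (fun i => z * pt m c' b' i) (fun i => mulz (dist_a hS hA3 m c' b' i))
      (fun i => far1 yn) a₁ v _ hv2
  have ex := abs_le.mp xc
  have ex2 := abs_le.mp xb
  have ex3 := abs_le.mp xa
  have ey := abs_le.mp yc
  have ey2 := abs_le.mp yb
  have ey3 := abs_le.mp ya
  have eu := abs_le.mp hu2
  have ev := abs_le.mp hv2
  have s4a : Con S r (A * (2 * (M * k))) (z * pt m c' b' v) (z * pt m c b' v) :=
    con_int' hS (fun i => z * pt m i b' v) (fun i => mulz (dist_c hS hA1 m i b' v))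
      (fun i => far1 yn) c' c _ (by
        rw [abs_le]
        push_cast at *
        constructor <;> linarith)
  have s4b : Con S r (A * (2 * (M * k))) (z * pt m c b' v) (z * pt m c b v) :=
    con_int' hS (fun i => z * pt m c i v) (fun i => mulz (dist_b hS hA2 m c i v))
      (fun i => far1 yn) b' b _ (by
        rw [abs_le]
        push_cast at *
        constructor <;> linarith)
  have s4c : Con S r (A * (22 * (M * k))) (z * pt m c b v) (z * pt m c b u) :=
    con_int' hS (fun i => z * pt m c b i) (fun i => mulz (dist_a hS hA3 m c b i))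
      (fun i => far1 yn) v u _ (by
        rw [abs_le]
        push_cast at *
        constructor <;> linarith)
  have hc10 : 10 * ((M * k : ℕ) : ℤ) ≤ |10 * ((M * k : ℕ) : ℤ)| := le_abs_self _
  have s6a : Con S r (A * (11 * (M * k))) (pt m c b u) (pt m (10 * ((M * k : ℕ) : ℤ)) b u) :=
    con_int' hS (fun i => pt m i b u) (fun i => dist_c hS hA1 m i b u)
      (fun i => far_a hM hMB hr hu1) c _ _ (by
        rw [abs_le]
        push_cast at *
        constructor <;> linarith)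
  have s6b : Con S r (A * (2 * (M * k))) (pt m (10 * ((M * k : ℕ) : ℤ)) b u)
      (pt m (10 * ((M * k : ℕ) : ℤ)) b' u) :=
    con_int' hS (fun i => pt m (10 * ((M * k : ℕ) : ℤ)) i u)
      (fun i => dist_b hS hA2 m _ i u)
      (fun i => far_c hM hMB hr hc10) b b' _ (by
        rw [abs_le]
        push_cast at *
        constructor <;> linarith)
  have s6c : Con S r (A * (22 * (M * k))) (pt m (10 * ((M * k : ℕ) : ℤ)) b' u)
      (pt m (10 * ((M * k : ℕ) : ℤ)) b' v) :=
    con_int' hS (fun i => pt m (10 * ((M * k : ℕ) : ℤ)) b' i)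
      (fun i => dist_a hS hA3 m _ b' i)
      (fun i => far_c hM hMB hr hc10) u v _ (by
        rw [abs_le]
        push_cast at *
        constructor <;> linarith)
  have s6d : Con S r (A * (11 * (M * k))) (pt m (10 * ((M * k : ℕ) : ℤ)) b' v)
      (pt m c' b' v) :=
    con_int' hS (fun i => pt m i b' v) (fun i => dist_c hS hA1 m i b' v)
      (fun i => far_a hM hMB hr hv1) _ c' _ (by
        rw [abs_le]
        push_cast at *
        constructor <;> linarith)
  have tot := ((((((((((((hu3.trans s2).trans s3a).trans s3b).trans s3c).trans s3d).trans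
    s4a).trans s4b).trans s4c).trans s5).trans s6a).trans s6b).trans s6c).trans
    (s6d.trans hv3.symm)
  refine tot.mono ?_
  have e1 : ∀ i : ℕ, A * (i * (M * k)) = i * (A * (M * k)) := fun i => by ring
  rw [e1, e1, e1, e1]
  have e2 : A ≤ A * (M * k) := Nat.le_mul_of_pos_right A (Nat.mul_pos (by omega) (by omega))
  have e3 : k ≤ A * (M * k) := by
    rw [← mul_assoc]
    exact Nat.le_mul_of_pos_left k (Nat.mul_pos (by omega) (by omega))
  omega

end main

/-- Module D. -/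
theorem targetD : TargetD := by
  intro S hS
  obtain ⟨A, hA, hA1, hA2, hA3, hA4⟩ := exists_A S
  obtain ⟨M, hM, hMB⟩ := exists_M S hS
  refine ⟨116 * (A * M), 2 * (1 + A * M), 2 * (1 + A * M) * (1 + A), ?_⟩
  intro k hk x y hx hy
  generalize hB : 1 + A * M = B at *
  have hB1 : 1 ≤ B := by omega
  have hdiv : B * (k / B) ≤ k := Nat.mul_div_le k B
  have hdiv2 : k < B * (k / B) + B := by
    have := Nat.div_add_mod k B
    have := Nat.mod_lt k hB1
    omega
  have hAk : A ≤ k / B := by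
    rw [Nat.le_div_iff_mul_le hB1]
    calc A * B ≤ 2 * B * (1 + A) := by nlinarith
      _ ≤ k := hk
  have hr : (1 + A * M) * (k / B - A + A) ≤ k := by
    rw [Nat.sub_add_cancel hAk, hB]
    exact hdiv
  have hk1 : 1 ≤ k := by
    have : 1 * 1 ≤ 2 * B * (1 + A) := Nat.mul_le_mul (by omega) (by omega)
    omega
  obtain ⟨T, p, h1, h2, h3, h4, h5⟩ :=
    wide_main hS hA hA1 hA2 hA3 hA4 hM hMB hr hk1 hx hy
  refine ⟨T, p, h1.trans (le_of_eq (by ring)), h2, h3, h4, ?_⟩
  intro t ht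
  have h6 := h5 t ht
  have h7 : 2 * B * (k / B - A) ≤ 2 * B * (cay S).dist 1 (p t) := Nat.mul_le_mul_left _ h6
  have h8 : B * (k / B - A) + B * A = B * (k / B) := by
    rw [← Nat.mul_add, Nat.sub_add_cancel hAk]
  have h9 : 2 * B * (k / B - A) = 2 * (B * (k / B - A)) := by ring
  have h10 : 2 * B * (1 + A) = 2 * B + 2 * (B * A) := by ring
  rw [h9] at h7
  rw [h10] at hk
  omega

end Pool.Agent.H9.Morse
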