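import Pool.Agent.H20.Morse.Cay

/-! Module D of MP_b587bd_al: `H` is wide for every finite generating set, first part (helper9). -/

set_option autoImplicit false

namespace Pool.Agent.H9.Morse

open Pool.Agent.H20.Morse

theorem mem_H {g : G} : g ∈ H ↔ g.right.h = 0 := by
  unfold H
  rw [MonoidHom.mem_ker]
  constructor
  · intro h
    exact Multiplicative.ofAdd.injective h
  · intro h
    change Multiplicative.ofAdd g.right.h = 1
    rw [h]
    rfl

/-- The element of `H` with lamps `n` and position `(c, b, a)`. -/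
def pt (n : N) (c b a : ℤ) : H := ⟨⟨n, ⟨c, b, a, 0⟩⟩, mem_H.mpr rfl⟩

theorem eq_pt (g : H) : g = pt g.1.left g.1.right.c g.1.right.b g.1.right.a := by
  apply Subtype.ext
  have h := mem_H.mp g.2
  refine SemidirectProduct.ext ?_ ?_
  · rfl
  · ext
    · rfl
    · rfl
    · rfl
    · exact h

theorem psi_word (q : Q) (w : List Pol) :
    psi q (w.map lmp).prod = ((w.map (fun x => q • x)).map lmp).prod := by
  rw [map_list_prod, List.map_map, List.map_map]
  rfl

theorem pt_mul (n m : N) (c b a c' b' a' : ℤ) :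
    pt n c b a * pt m c' b' a' = pt (n * psi ⟨c, b, a, 0⟩ m) (c + c') (b + b') (a + a') := by
  apply Subtype.ext
  refine SemidirectProduct.ext ?_ ?_
  · rfl
  · ext
    · change c + c' + b' * 0 + a' * 0 ^ 2 = c + c'
      ring
    · change b + b' + 2 * a' * 0 = b + b'
      ring
    · rfl
    · rfl

theorem pt_mul_one (n : N) (c b a c' b' a' : ℤ) :
    pt n c b a * pt 1 c' b' a' = pt n (c + c') (b + b') (a + a') := by
  rw [pt_mul, map_one, mul_one]

theorem pt_mul_lamp (n : N) (c b a : ℤ) :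
    pt n c b a * pt (lmp x0) 0 0 0 = pt (n * lmp ⟨c, b, a + 1⟩) c b a := by
  rw [pt_mul, psi_lmp]
  have : (⟨c, b, a, 0⟩ : Q) • x0 = ⟨c, b, a + 1⟩ := by
    ext <;> simp [x0]
  rw [this]
  simp

theorem lamp_mul_pt (n : N) (U : Pol) (c b a : ℤ) :
    pt (lmp U) 0 0 0 * pt n c b a = pt (lmp U * n) c b a := by
  rw [pt_mul]
  have h1 : (⟨0, 0, 0, 0⟩ : Q) = 1 := rfl
  rw [h1, map_one]
  simp

theorem one_eq_pt : (1 : H) = pt 1 0 0 0 := rfl

/-! ### Boundedness -/

/-- The word of lamps is in the box of radius `R` around `x0`. -/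
def LB (R : ℤ) (n : N) : Prop :=
  ∃ w : List Pol, (w.map lmp).prod = n ∧ ∀ v ∈ w, |v.c| ≤ R ∧ |v.b| ≤ R ∧ |v.a - 1| ≤ R

theorem LB.mono {R R' : ℤ} {n : N} (h : LB R n) (hR : R ≤ R') : LB R' n := by
  obtain ⟨w, h1, h2⟩ := h
  exact ⟨w, h1, fun v hv => ⟨(h2 v hv).1.trans hR, (h2 v hv).2.1.trans hR,
    (h2 v hv).2.2.trans hR⟩⟩

theorem LB.one {R : ℤ} : LB R (1 : N) := ⟨[], rfl, by simp⟩

theorem LB.mul {R : ℤ} {n m : N} (h : LB R n) (h' : LB R m) : LB R (n * m) := by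
  obtain ⟨w, h1, h2⟩ := h
  obtain ⟨w', h1', h2'⟩ := h'
  refine ⟨w ++ w', by rw [List.map_append, List.prod_append, h1, h1'], ?_⟩
  intro v hv
  rcases List.mem_append.mp hv with hv | hv
  · exact h2 v hv
  · exact h2' v hv

theorem LB.psi {R R' : ℤ} {n : N} (h : LB R n) {c b a : ℤ} (hc : |c| ≤ R') (hb : |b| ≤ R')
    (ha : |a| ≤ R') : LB (R + R') (psi ⟨c, b, a, 0⟩ n) := by
  obtain ⟨w, h1, h2⟩ := h
  refine ⟨w.map (fun x => (⟨c, b, a, 0⟩ : Q) • x), by rw [← psi_word, h1], ?_⟩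
  intro v hv
  obtain ⟨v', hv', rfl⟩ := List.mem_map.mp hv
  obtain ⟨e1, e2, e3⟩ := h2 v' hv'
  simp only [Q.smul_c, Q.smul_b, Q.smul_a]
  have k1 : c + v'.c + v'.b * 0 + v'.a * 0 ^ 2 = c + v'.c := by ring
  have k2 : b + v'.b + 2 * v'.a * 0 = b + v'.b := by ring
  have k3 : a + v'.a - 1 = a + (v'.a - 1) := by ring
  rw [k1, k2, k3]
  refine ⟨(abs_add_le _ _).trans (by linarith), (abs_add_le _ _).trans (by linarith),
    (abs_add_le _ _).trans (by linarith)⟩

/-- The element is in the box of radius `R`. -/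
def Bd (R : ℤ) (g : H) : Prop :=
  |g.1.right.c| ≤ R ∧ |g.1.right.b| ≤ R ∧ |g.1.right.a| ≤ R ∧ LB R g.1.left

theorem Bd.mono {R R' : ℤ} {g : H} (h : Bd R g) (hR : R ≤ R') : Bd R' g :=
  ⟨h.1.trans hR, h.2.1.trans hR, h.2.2.1.trans hR, h.2.2.2.mono hR⟩

theorem bd_pt {R : ℤ} {n : N} {c b a : ℤ} :
    Bd R (pt n c b a) ↔ |c| ≤ R ∧ |b| ≤ R ∧ |a| ≤ R ∧ LB R n := Iff.rfl

theorem bd_one {R : ℤ} (hR : 0 ≤ R) : Bd R (1 : H) := by
  rw [one_eq_pt, bd_pt]
  simp [hR, LB.one]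

theorem Bd.mul {R R' : ℤ} {g g' : H} (h : Bd R g) (h' : Bd R' g') : Bd (R + R') (g * g') := by
  rw [eq_pt g, bd_pt] at h
  rw [eq_pt g', bd_pt] at h'
  rw [eq_pt g, eq_pt g', pt_mul, bd_pt]
  obtain ⟨h1, h2, h3, h4⟩ := h
  obtain ⟨h1', h2', h3', h4'⟩ := h'
  have hR : 0 ≤ R' := (abs_nonneg _).trans h1'
  refine ⟨(abs_add_le _ _).trans (add_le_add h1 h1'), (abs_add_le _ _).trans (add_le_add h2 h2'),
    (abs_add_le _ _).trans (add_le_add h3 h3'), ?_⟩
  refine (h4.mono (by linarith)).mul ?_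
  have := h4'.psi h1 h2 h3
  rwa [add_comm] at this

theorem exists_LB (n : N) : ∃ R : ℕ, LB (R : ℤ) n := by
  obtain ⟨w, rfl⟩ := Racg.exists_word n
  induction w with
  | nil => exact ⟨0, LB.one⟩
  | cons x w ih =>
    obtain ⟨R, hR⟩ := ih
    refine ⟨R + (|x.c| + |x.b| + |x.a - 1|).natAbs, ?_⟩
    rw [List.map_cons, List.prod_cons]
    refine LB.mul ?_ (hR.mono (by push_cast; linarith [abs_nonneg (|x.c| + |x.b| + |x.a - 1|)]))
    refine ⟨[x], by simp, ?_⟩
    intro v hv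
    rw [List.mem_singleton] at hv
    subst hv
    have h0 : 0 ≤ |v.c| + |v.b| + |v.a - 1| := by positivity
    have h1 : (((|v.c| + |v.b| + |v.a - 1|).natAbs : ℕ) : ℤ) = |v.c| + |v.b| + |v.a - 1| :=
      Int.natAbs_of_nonneg h0
    push_cast
    rw [abs_of_nonneg h0]
    have := abs_nonneg v.c
    have := abs_nonneg v.b
    have := abs_nonneg (v.a - 1)
    have : (0 : ℤ) ≤ R := Int.natCast_nonneg R
    refine ⟨by linarith, by linarith, by linarith⟩

theorem exists_Bd (g : H) : ∃ R : ℕ, Bd (R : ℤ) g := by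
  obtain ⟨R, hR⟩ := exists_LB g.1.left
  have h1 := Int.natCast_natAbs g.1.right.c
  have h2 := Int.natCast_natAbs g.1.right.b
  have h3 := Int.natCast_natAbs g.1.right.a
  refine ⟨R + g.1.right.c.natAbs + g.1.right.b.natAbs + g.1.right.a.natAbs, ?_⟩
  have := abs_nonneg g.1.right.c
  have := abs_nonneg g.1.right.b
  have := abs_nonneg g.1.right.a
  have : (0 : ℤ) ≤ R := Int.natCast_nonneg R
  refine ⟨?_, ?_, ?_, hR.mono ?_⟩ <;> push_cast <;> linarith

/-- Linear growth of the boxes. -/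
theorem exists_M (S : Finset H) (hS : Subgroup.closure (S : Set H) = ⊤) :
    ∃ M : ℕ, 1 ≤ M ∧ ∀ g : H, Bd ((M * (cay S).dist 1 g : ℕ) : ℤ) g := by
  choose R hR using exists_Bd
  have hone : ∃ M : ℕ, 1 ≤ M ∧ ∀ s : H, (s ∈ S ∨ s⁻¹ ∈ S) → Bd (M : ℤ) s := by
    refine ⟨1 + S.sup (fun s => R s + R s⁻¹), by omega, ?_⟩
    intro s hs
    rcases hs with hs | hs
    · have h1 : R s + R s⁻¹ ≤ S.sup (fun s => R s + R s⁻¹) :=
        Finset.le_sup (f := fun s => R s + R s⁻¹) hs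
      exact (hR s).mono (by exact_mod_cast (by omega))
    · have h1 : R s⁻¹ + R s⁻¹⁻¹ ≤ S.sup (fun s => R s + R s⁻¹) :=
        Finset.le_sup (f := fun s => R s + R s⁻¹) hs
      rw [inv_inv] at h1
      exact (hR s).mono (by exact_mod_cast (by omega))
  obtain ⟨M, hM1, hM⟩ := hone
  refine ⟨M, hM1, ?_⟩
  intro g
  obtain ⟨p, h0, h1, hp⟩ := exists_steps hS (1 : H) g
  have key : ∀ t, t ≤ (cay S).dist 1 g → Bd ((M * t : ℕ) : ℤ) (p t) := by
    intro t
    induction t with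
    | zero =>
      intro _
      rw [h0]
      exact bd_one (by simp)
    | succ t ih =>
      intro ht
      obtain ⟨s, hs, hs'⟩ := hp t (by omega)
      rw [hs']
      have := (ih (by omega)).mul (hM s hs)
      refine this.mono ?_
      push_cast
      linarith
  have := key _ le_rfl
  rwa [h1] at this

/-! ### Parity -/

open Classical in
/-- Parity of the number of occurrences of `U`. -/
noncomputable def par (U : Pol) : N →* Multiplicative (ZMod 2) :=
  Racg.lift (fun x => if x = U then Multiplicative.ofAdd 1 else 1) (by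
    intro x
    split_ifs
    · rfl
    · rfl) (by
    intro x y _
    exact mul_comm _ _)

theorem par_lmp_self (U : Pol) : par U (lmp U) = Multiplicative.ofAdd 1 := by
  unfold par
  rw [Racg.lift_lamp]
  simp

theorem par_lmp_ne {U x : Pol} (h : x ≠ U) : par U (lmp x) = 1 := by
  unfold par
  rw [Racg.lift_lamp]
  simp [h]

theorem par_LB {U : Pol} {R : ℤ} {n : N} (h : LB R n) (hU : R < |U.a - 1|) : par U n = 1 := by
  obtain ⟨w, rfl, h2⟩ := h
  rw [map_list_prod]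
  apply List.prod_eq_one
  intro z hz
  rw [List.map_map] at hz
  obtain ⟨v, hv, rfl⟩ := List.mem_map.mp hz
  apply par_lmp_ne
  rintro rfl
  have := (h2 v hv).2.2
  linarith

theorem ofAdd_one_ne : (Multiplicative.ofAdd (1 : ZMod 2)) ≠ 1 := by decide

end Pool.Agent.H9.Morse
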